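import Pool.Agent.Lib.NGT.Mn

/-!
# NGU / Tor: one criterion for the torus classes

`n = finrank`, `q` odd, `M ∣ q^n - 1` or `M ∣ q^n + 1`, and `M ∣ q^i - 2` or `M ∣ q^i + 2` for some `i`: then `K_{a,b+1}` is in the norm graph for all
`a + b + 1 = M`. As NGT / Mn; the value of the norm form `P` on `y = r + 1/r` (`r^M = 1`, `r ≠ 1`): with `x = r - 1/r`, `x^(q^i) = σ (r^2 - 1/r^2) = σ x y`,
`σ = ± 1`, and `(P x)^q = κ P x`, `κ = ± 1` since `x^(q^n) = κ x`; so `κ^i P x = P σ * P x * P y`.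
-/

set_option autoImplicit false

namespace Pool.Agent.Lib.NGU

open Finset SimpleGraph Pool.Agent.Lib.MP_f4a4e4_co.NGX Pool.Agent.Lib.NGT

theorem P_pow (F : Type*) {L : Type*} [Field L] (n : ℕ) {x κ : L} (hx0 : x ≠ 0) (hx : x ^ (Nat.card F ^ n) = κ * x) :
    P F n x ^ Nat.card F = κ * P F n x := by
  have h1 : P F n x ^ Nat.card F = ∏ i ∈ range n, x ^ (Nat.card F ^ (i + 1)) := by
    unfold P
    rw [← Finset.prod_pow]
    refine Finset.prod_congr rfl fun i _ => ?_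
    rw [← pow_mul, pow_succ]
  have h2 := Finset.prod_range_succ' (fun i => x ^ (Nat.card F ^ i)) n
  have h3 := Finset.prod_range_succ (fun i => x ^ (Nat.card F ^ i)) n
  rw [h2, pow_zero, pow_one] at h3
  apply mul_right_cancel₀ hx0
  rw [h1]
  refine h3.trans ?_
  rw [hx]
  unfold P
  ring

theorem P_iter (F : Type*) {L : Type*} [Field L] (n : ℕ) {x κ : L} (hκ : κ ^ Nat.card F = κ)
    (h : P F n x ^ Nat.card F = κ * P F n x) (i : ℕ) : P F n x ^ (Nat.card F ^ i) = κ ^ i * P F n x := by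
  induction i with
  | zero => simp
  | succ i ih =>
    rw [pow_succ, pow_mul, ih, mul_pow, h, ← pow_mul, mul_comm i, pow_mul, hκ]
    ring

theorem P_powr (F : Type*) {L : Type*} [Field L] (n : ℕ) (x : L) (k : ℕ) : P F n (x ^ k) = P F n x ^ k := by
  unfold P
  rw [← Finset.prod_pow]
  refine Finset.prod_congr rfl fun i _ => ?_
  rw [← pow_mul, ← pow_mul, mul_comm]

/-- the odd function `r - 1/r` -/
theorem odd_pow {F L : Type*} [Field F] [Finite F] [Field L] [Algebra F L] (hodd : Odd (Nat.card F)) {M a k : ℕ}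
    (h : PM M (Nat.card F ^ k) a) :
    ∃ κ : L, κ ≠ 0 ∧ κ ^ Nat.card F = κ ∧ ∀ r : L, r ^ M = 1 → (r - r⁻¹) ^ (Nat.card F ^ k) = κ * (r ^ a - (r⁻¹) ^ a) := by
  rcases h with h | h
  · refine ⟨1, one_ne_zero, one_pow _, fun r hr => ?_⟩
    have hr' : (r⁻¹) ^ M = 1 := by rw [inv_pow, hr, inv_one]
    rw [frob_sub' F L, pow_eq_pow_of_modEq h hr, pow_eq_pow_of_modEq h hr', one_mul]
  · refine ⟨-1, neg_ne_zero.2 one_ne_zero, hodd.neg_one_pow, fun r hr => ?_⟩
    have h1 : r ^ (Nat.card F ^ k) * r ^ a = 1 := by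
      rw [← pow_add]
      obtain ⟨t, ht⟩ := h
      rw [ht, pow_mul, hr, one_pow]
    have e1 : r ^ (Nat.card F ^ k) = (r⁻¹) ^ a := by
      rw [inv_pow]
      exact eq_inv_of_mul_eq_one_left h1
    have e2 : (r⁻¹) ^ (Nat.card F ^ k) = r ^ a := by
      rw [inv_pow]
      exact inv_eq_of_mul_eq_one_right h1
    rw [frob_sub' F L, e1, e2]
    ring

/-- the value of the norm form on `r + 1/r` -/
theorem P_val' {F L : Type*} [Field F] [Finite F] [Field L] [Algebra F L] (hodd : Odd (Nat.card F)) {n i M : ℕ}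
    (hMo : Odd M) (hQ : PM M (Nat.card F ^ n) 1) (hi : PM M (Nat.card F ^ i) 2) :
    ∃ ε : L, ε ≠ 0 ∧ ∀ r : L, r ^ M = 1 → r ≠ 1 → P F n (r + r⁻¹) = ε := by
  obtain ⟨κ, hκ0, hκq, hκ⟩ := odd_pow (L := L) hodd hQ
  obtain ⟨σ, hσ0, -, hσ⟩ := odd_pow (L := L) hodd hi
  have hPσ : P F n σ ≠ 0 := Finset.prod_ne_zero_iff.2 fun k _ => pow_ne_zero _ hσ0
  refine ⟨κ ^ i / P F n σ, div_ne_zero (pow_ne_zero _ hκ0) hPσ, fun r hr hr1 => ?_⟩
  have h0 := ne_zero' hMo hr
  have hx0 := sub_ne hMo hr hr1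
  have hx : (r - r⁻¹) ^ (Nat.card F ^ n) = κ * (r - r⁻¹) := by
    have h1 := hκ r hr
    rwa [pow_one, pow_one] at h1
  have h1 := P_iter F n hκq (P_pow F n hx0 hx) i
  have h2 : (r - r⁻¹) ^ (Nat.card F ^ i) = σ * (r - r⁻¹) * (r + r⁻¹) := by
    rw [hσ r hr]
    ring
  rw [← P_powr, h2, P_mul, P_mul] at h1
  have hP0 : P F n (r - r⁻¹) ≠ 0 := Finset.prod_ne_zero_iff.2 fun k _ => pow_ne_zero _ hx0
  rw [eq_div_iff hPσ]
  apply mul_right_cancel₀ hP0
  rw [← h1]
  ring

theorem cop' {q n M : ℕ} (hn : 1 ≤ n) (hQ : PM M (q ^ n) 1) : Nat.Coprime q M := by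
  have h1 : Nat.Coprime (q ^ n) M := by
    rcases hQ with h | h
    · unfold Nat.Coprime
      rw [h.gcd_eq]
      exact Nat.gcd_one_left M
    · have h3 : Nat.gcd (q ^ n) M ∣ 1 :=
        (Nat.dvd_add_right (Nat.gcd_dvd_left (q ^ n) M)).1 ((Nat.gcd_dvd_right (q ^ n) M).trans h)
      exact Nat.dvd_one.1 h3
  exact Nat.Coprime.coprime_dvd_left (dvd_pow_self q (by omega)) h1

theorem PM_of {a b M : ℕ} (hab : b ≤ a) (h : M ∣ a - b ∨ M ∣ a + b) : PM M a b := by
  rcases h with h | h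
  · left
    exact ((Nat.modEq_iff_dvd' hab).2 h).symm
  · right
    exact h

/-- the torus criterion -/
theorem main {F K : Type} [Field F] [Field K] [Finite K] [Algebra F K] {n i M : ℕ} (hn : 1 ≤ n)
    (hm : Module.finrank F K = n) (hodd : Odd (Nat.card F)) (hQ : M ∣ Nat.card F ^ n - 1 ∨ M ∣ Nat.card F ^ n + 1)
    (hi : M ∣ Nat.card F ^ i - 2 ∨ M ∣ Nat.card F ^ i + 2) (hi2 : 2 ≤ Nat.card F ^ i) {a b : ℕ}
    (hab : a + b + 1 = M) (hs : a + b + a * b < Nat.card F ^ n) :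
    completeBipartiteGraph (Fin a) (Fin (b + 1)) ⊑ NormGraph F K := by
  classical
  have hF : Finite F := Finite.of_injective (algebraMap F K) (algebraMap F K).injective
  have hq0 : 1 ≤ Nat.card F := Nat.one_le_iff_ne_zero.2 Nat.card_pos.ne'
  have hQ0 : PM M (Nat.card F ^ n) 1 := PM_of (Nat.one_le_pow _ _ hq0) hQ
  have hi0 : PM M (Nat.card F ^ i) 2 := PM_of hi2 hi
  have hMo : Odd M := by
    have h1 : Odd (Nat.card F ^ i) := hodd.pow
    rcases hi with h | h
    · exact Odd.of_dvd_nat (Nat.Odd.sub_even hi2 h1 even_two) h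
    · exact Odd.of_dvd_nat (h1.add_even even_two) h
  have hcK : Nat.card K = Nat.card F ^ n := by rw [Module.natCard_eq_pow_finrank (K := F) (V := K), hm]
  have hQK : PM M (Nat.card K) 1 := by
    rw [hcK]
    exact hQ0
  have h2L : (2 : AlgebraicClosure K) ≠ 0 := two_ne (F := F) hodd
  obtain ⟨ω, hω0, hω⟩ := exists_om (L := AlgebraicClosure K) M (Nat.card K) Finite.one_lt_card hQK
  obtain ⟨ε, hε0, hε⟩ := P_val' (F := F) (L := AlgebraicClosure K) hodd hMo hQ0 hi0
  have : NeZero (M : AlgebraicClosure K) := ⟨cast_ne (F := F) (cop' hn hQ0)⟩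
  obtain ⟨ζ, hζ⟩ := HasEnoughRootsOfUnity.exists_primitiveRoot (AlgebraicClosure K) M
  have hadd : ∀ x y : AlgebraicClosure K, (x + y) ^ (Nat.card K) = x ^ (Nat.card K) + y ^ (Nat.card K) := by
    intro x y
    rw [hcK]
    exact frob_add' F _ n x y
  have hsub : ∀ x y : AlgebraicClosure K, (x - y) ^ (Nat.card K) = x ^ (Nat.card K) - y ^ (Nat.card K) := by
    intro x y
    rw [hcK]
    exact frob_sub' F _ n x y
  have hV : ∀ u : AlgebraicClosure K, u ^ M = 1 → ∃ x : K, algebraMap K (AlgebraicClosure K) x = ω * (u - u⁻¹) / (u + u⁻¹) :=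
    fun u hu => Pool.Agent.Lib.NGE.descent _ (fixV _ hadd hsub (hω u hu))
  have hU : ∀ u : AlgebraicClosure K, u ^ M = 1 → ∃ x : K, algebraMap K (AlgebraicClosure K) x = ω * (u + u⁻¹) / (u - u⁻¹) :=
    fun u hu => Pool.Agent.Lib.NGE.descent _ (fixU _ hadd hsub (hω u hu))
  choose! fV hfV using hV
  choose! fU hfU using hU
  have hz : ∀ i : ℕ, (ζ ^ i) ^ M = 1 := fun i => by rw [← pow_mul, mul_comm, pow_mul, hζ.pow_eq_one, one_pow]
  have hz1 : ∀ i : ℕ, 0 < i → i < M → ζ ^ i ≠ 1 := fun i h0 hi => hζ.pow_ne_one_of_pos_of_lt h0.ne' hi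
  set A : Finset K := (range a).image fun i => fV (ζ ^ (i + 1)) with hA
  set B : Finset K := (range b).image fun i => fU (ζ ^ (a + i + 1)) with hB
  have hAc : A.card = a := by
    rw [hA, card_image_of_injOn, card_range]
    intro i hi k hk hik
    have hi' := mem_range.1 (Finset.mem_coe.1 hi)
    have hk' := mem_range.1 (Finset.mem_coe.1 hk)
    have h1 : fV (ζ ^ (i + 1)) = fV (ζ ^ (k + 1)) := hik
    have h3 := congrArg (algebraMap K (AlgebraicClosure K)) h1
    rw [hfV _ (hz _), hfV _ (hz _)] at h3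
    have h4 := injV hMo h2L hω0 (hz _) (hz _) h3
    have h5 := hζ.pow_inj (by omega) (by omega) h4
    omega
  have hBc : B.card = b := by
    rw [hB, card_image_of_injOn, card_range]
    intro i hi k hk hik
    have hi' := mem_range.1 (Finset.mem_coe.1 hi)
    have hk' := mem_range.1 (Finset.mem_coe.1 hk)
    have h1 : fU (ζ ^ (a + i + 1)) = fU (ζ ^ (a + k + 1)) := hik
    have h3 := congrArg (algebraMap K (AlgebraicClosure K)) h1
    rw [hfU _ (hz _), hfU _ (hz _)] at h3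
    have h4 := injU hMo h2L hω0 (hz _) (hz _) (hz1 _ (by omega) (by omega)) (hz1 _ (by omega) (by omega)) h3
    have h5 := hζ.pow_inj (by omega) (by omega) h4
    omega
  have hP : ∀ i ∈ range a, ∀ k ∈ range b,
      algebraMap K (AlgebraicClosure K) (algebraMap F K (Algebra.norm F (fV (ζ ^ (i + 1)) - fU (ζ ^ (a + k + 1))))) =
        P F n (-2 * ω) / P F n (ζ ^ (a + k + 1) - (ζ ^ (a + k + 1))⁻¹) := by
    intro i hi k hk
    have hi' := mem_range.1 hi
    have hk' := mem_range.1 hk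
    rw [norm_P, map_sub, hfV _ (hz _), hfU _ (hz _), hm]
    refine P_diff hMo h2L hε0 hε ω _ _ (hz _) (hz _) (hz1 _ (by omega) (by omega)) (hz1 _ (by omega) (by omega)) ?_
    intro h
    have h5 := hζ.pow_inj (by omega) (by omega) h
    omega
  have hP0 : ∀ x : AlgebraicClosure K, x ≠ 0 → P F n x ≠ 0 := by
    intro x hx
    exact Finset.prod_ne_zero_iff.2 fun i _ => pow_ne_zero _ hx
  have hinj : Function.Injective fun c : F => algebraMap K (AlgebraicClosure K) (algebraMap F K c) :=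
    (algebraMap K (AlgebraicClosure K)).injective.comp (algebraMap F K).injective
  have key1 : completeBipartiteGraph (Fin A.card) (Fin (B.card + 1)) ⊑ NormGraph F K := by
    refine bic' A B ?_ ?_ ?_
    · intro x hx y hy hxy
      obtain ⟨i, hi, rfl⟩ := mem_image.1 hx
      obtain ⟨k, hk, rfl⟩ := mem_image.1 hy
      have h1 := hP i hi k hk
      rw [hxy, sub_self] at h1
      have h3 : Algebra.norm F (0 : K) = 0 := by
        exact Algebra.norm_zero
      rw [h3, map_zero, map_zero] at h1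
      have hk' := mem_range.1 hk
      refine (div_ne_zero (hP0 _ (mul_ne_zero (neg_ne_zero.2 h2L) hω0)) (hP0 _ (sub_ne hMo (hz _) (hz1 _ (by omega) (by omega))))) h1.symm
    · intro x hx x' hx' y hy
      obtain ⟨i, hi, rfl⟩ := mem_image.1 hx
      obtain ⟨i', hi', rfl⟩ := mem_image.1 hx'
      obtain ⟨k, hk, rfl⟩ := mem_image.1 hy
      apply hinj
      show algebraMap K (AlgebraicClosure K) (algebraMap F K _) = algebraMap K (AlgebraicClosure K) (algebraMap F K _)
      rw [hP i hi k hk, hP i' hi' k hk]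
    · rw [hAc, hBc, hcK]
      exact hs
  rwa [hAc, hBc] at key1

end Pool.Agent.Lib.NGU
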